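import Mathlib
import Pool.Agent.Helper13.DH.FunMain
import Pool.Agent.Helper13.DH.SpDH
import Pool.Agent.Helper13.DH.SpC0
import Pool.Agent.Helper13.DH.SpLp

/-!
# A disjointly homogeneous Banach lattice with a symmetric basis, different from `c₀` and `ℓ_p`

There is an atomic Banach lattice `X` of real sequences whose unit vectors form a symmetric basis,
which is disjointly homogeneous and isomorphic neither to `c₀` nor to `ℓ_p` for any `1 ≤ p < ∞`.
-/

set_option autoImplicit false

open Filter Topology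
open scoped ENNReal ZeroAtInfty

namespace Pool.Agent.Results.MP_6ad661_an.Counterexample

/-- The series `∑ u_k` converges in norm. -/
def SeriesConverges {X : Type} [NormedAddCommGroup X] (u : ℕ → X) : Prop :=
  ∃ l : X, Tendsto (fun n => ∑ k ∈ Finset.range n, u k) atTop (𝓝 l)

/-- Equivalence of sequences: `∑ a_k x_k` converges if and only if `∑ a_k y_k` converges. -/
def EquivSeq {X : Type} [NormedAddCommGroup X] [NormedSpace ℝ X] (x y : ℕ → X) : Prop :=
  ∀ a : ℕ → ℝ, SeriesConverges (fun k => a k • x k) ↔ SeriesConverges (fun k => a k • y k)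

/-- A real Banach lattice: a complete normed space with a vector lattice order and a monotone
(solid) norm. -/
structure IsBanachLattice (X : Type) [NormedAddCommGroup X] [NormedSpace ℝ X] [Lattice X] :
    Prop where
  complete : CompleteSpace X
  add_le_add : ∀ x y z : X, x ≤ y → x + z ≤ y + z
  smul_le_smul : ∀ (c : ℝ) (x y : X), 0 ≤ c → x ≤ y → c • x ≤ c • y
  solid : ∀ x y : X, |x| ≤ |y| → ‖x‖ ≤ ‖y‖

/-- The members of `X` are real sequences (`co x` is the sequence that belongs to `x`) with the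
coordinatewise order, and `e n` is the `n`-th unit vector, which is an atom. -/
structure IsSequenceLattice (X : Type) [NormedAddCommGroup X] [NormedSpace ℝ X] [Lattice X]
    (co : X →ₗ[ℝ] (ℕ → ℝ)) (e : ℕ → X) : Prop where
  injective : Function.Injective co
  le_iff : ∀ x y : X, x ≤ y ↔ ∀ n, co x n ≤ co y n
  sup : ∀ (x y : X) (n : ℕ), co (x ⊔ y) n = max (co x n) (co y n)
  inf : ∀ (x y : X) (n : ℕ), co (x ⊓ y) n = min (co x n) (co y n)
  unit : ∀ n, co (e n) = Pi.single n 1
  atom : ∀ (n : ℕ) (x : X), 0 ≤ x → x ≤ e n → ∃ c : ℝ, x = c • e n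

/-- `(e n)` is a Schauder basis of `X`. -/
def IsSchauderBasis (X : Type) [NormedAddCommGroup X] [NormedSpace ℝ X] (e : ℕ → X) : Prop :=
  ∀ x : X, ∃! a : ℕ → ℝ, Tendsto (fun n => ∑ k ∈ Finset.range n, a k • e k) atTop (𝓝 x)

/-- `(e n)` is symmetric: it is equivalent to `(e (π n))` for every permutation `π`. -/
def IsSymmetric (X : Type) [NormedAddCommGroup X] [NormedSpace ℝ X] (e : ℕ → X) : Prop :=
  ∀ π : Equiv.Perm ℕ, EquivSeq (fun n => e (π n)) e

/-- A normalised sequence of pairwise disjoint elements. -/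
def IsNormalisedDisjoint {X : Type} [NormedAddCommGroup X] [Lattice X] (x : ℕ → X) : Prop :=
  (∀ n, ‖x n‖ = 1) ∧ ∀ m n, m ≠ n → |x m| ⊓ |x n| = 0

/-- Disjointly homogeneous: any two normalised sequences of pairwise disjoint elements have
equivalent subsequences. -/
def DisjointlyHomogeneous (X : Type) [NormedAddCommGroup X] [NormedSpace ℝ X] [Lattice X] :
    Prop :=
  ∀ x y : ℕ → X, IsNormalisedDisjoint x → IsNormalisedDisjoint y →
    ∃ φ ψ : ℕ → ℕ, StrictMono φ ∧ StrictMono ψ ∧
      EquivSeq (fun n => x (φ n)) (fun n => y (ψ n))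

/-- There is an atomic Banach lattice with a symmetric basis that is disjointly homogeneous and
isomorphic neither to `c₀` nor to `ℓ_p` for any `1 ≤ p < ∞`. -/
theorem result : ∃ (X : Type) (_ : NormedAddCommGroup X) (_ : NormedSpace ℝ X) (_ : Lattice X)
    (co : X →ₗ[ℝ] (ℕ → ℝ)) (e : ℕ → X),
    IsBanachLattice X ∧ IsSequenceLattice X co e ∧ IsSchauderBasis X e ∧ IsSymmetric X e ∧
    DisjointlyHomogeneous X ∧ IsEmpty (X ≃L[ℝ] C₀(ℕ, ℝ)) ∧
    ∀ (p : ℝ≥0∞) [Fact (1 ≤ p)], p ≠ ⊤ → IsEmpty (X ≃L[ℝ] lp (fun _ : ℕ => ℝ) p) := by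
  obtain ⟨Φ, h, hU, hL, hA, hG⟩ := DHsp.exists_functional
  refine ⟨DHsp.ESp Φ h, inferInstance, inferInstance, inferInstance, DHsp.ESp.co, DHsp.ESp.e,
    ?_, ?_, ?_, ?_, ?_, ?_, ?_⟩
  · exact
      { complete := inferInstance
        add_le_add := fun x y z hxy => by
          intro n
          simpa using hxy n
        smul_le_smul := fun c x y hc hxy => DHsp.ESp.smul_le_smul' hc hxy
        solid := fun x y hxy => HasSolidNorm.solid hxy }
  · exact
      { injective := DHsp.ESp.co_inj
        le_iff := fun x y => Iff.rfl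
        sup := fun x y n => rfl
        inf := fun x y n => rfl
        unit := fun n => rfl
        atom := fun n x h0 h1 => by
          refine ⟨DHsp.ESp.co x n, ?_⟩
          ext m
          have h2 : 0 ≤ DHsp.ESp.co x m := by simpa using h0 m
          have h3 : DHsp.ESp.co x m ≤ DHsp.ESp.co (DHsp.ESp.e n : DHsp.ESp Φ h) m := h1 m
          rw [map_smul, DHsp.ESp.co_e, Pi.smul_apply, smul_eq_mul]
          rw [DHsp.ESp.co_e] at h3
          by_cases hm : m = n
          · subst hm
            simp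
          · rw [Pi.single_eq_of_ne hm] at h3 ⊢
            rw [mul_zero]
            exact le_antisymm h3 h2 }
  · intro x
    refine ⟨DHsp.ESp.co x, DHsp.ESp.tail_tendsto x, ?_⟩
    intro a ha
    funext n
    have hcont : Continuous fun y : DHsp.ESp Φ h => DHsp.ESp.co y n := by
      refine (LinearMap.mkContinuous ((LinearMap.proj n).comp DHsp.ESp.co) 1 ?_).continuous
      intro y
      simpa using DHsp.ESp.abs_co_le y n
    have h1 := (hcont.tendsto x).comp ha
    refine tendsto_nhds_unique ?_ h1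
    refine tendsto_const_nhds.congr' ?_
    filter_upwards [eventually_gt_atTop n] with N hN
    simp only [Function.comp, map_sum, map_smul, DHsp.ESp.co_e, Finset.sum_apply, Pi.smul_apply,
      smul_eq_mul]
    rw [Finset.sum_eq_single n]
    · simp
    · intro k _ hk
      rw [Pi.single_eq_of_ne (Ne.symm hk)]
      simp
    · intro hn
      exact absurd (Finset.mem_range.2 hN) hn
  · intro π a
    exact DHsp.ESp.symm_equiv π a
  · intro x y hx hy
    obtain ⟨φ, hφ, h1⟩ := DHsp.ESp.subseq_equiv hU hL x hx.1 fun m n hmn => hx.2 m n hmn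
    obtain ⟨ψ, hψ, h2⟩ := DHsp.ESp.subseq_equiv hU hL y hy.1 fun m n hmn => hy.2 m n hmn
    exact ⟨φ, ψ, hφ, hψ, fun a => (h1 a).trans (h2 a).symm⟩
  · exact DHsp.ESp.not_c0 hA hG
  · intro p _ hp
    exact DHsp.ESp.not_lp hG p hp

end Pool.Agent.Results.MP_6ad661_an.Counterexample
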